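import Mathlib

set_option autoImplicit false

namespace Pool.Agent.N590.NA

open Finset

/-- if at most `Y` elements have `F`-value at most `Y`, then the product of the values is at least
the factorial of the number of elements. -/
theorem factorial_le_prod {ι : Type*} (F : ι → ℕ) :
    ∀ (n : ℕ) (S : Finset ι), S.card = n → (∀ Y, (S.filter fun s => F s ≤ Y).card ≤ Y) →
      n.factorial ≤ ∏ s ∈ S, F s := by
  classical
  intro n
  induction n with
  | zero =>
    intro S hS _
    rw [card_eq_zero] at hS
    subst hS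
    simp
  | succ n ih =>
    intro S hS hF
    have hne : S.Nonempty := by
      rw [← card_pos]; omega
    obtain ⟨s, hs, hmax⟩ := exists_max_image S F hne
    have h1 : (S.filter fun t => F t ≤ F s).card ≤ F s := hF (F s)
    rw [filter_true_of_mem (fun t ht => hmax t ht), hS] at h1
    have h2 : (S.erase s).card = n := by rw [card_erase_of_mem hs, hS]; rfl
    have h3 := ih (S.erase s) h2 (fun Y => by
      refine le_trans (card_le_card ?_) (hF Y)
      exact filter_subset_filter _ (erase_subset _ _))
    rw [Nat.factorial_succ, ← mul_prod_erase S F hs]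
    exact Nat.mul_le_mul h1 h3

theorem log_factorial_ge (D : ℕ) (hD : 1 ≤ D) :
    (D : ℝ) * Real.log D - D ≤ Real.log (D.factorial : ℝ) := by
  have h1 := Real.pow_div_factorial_le_exp (D : ℝ) (by positivity) D
  have hD' : (0 : ℝ) < D := by exact_mod_cast hD
  have hf : (0 : ℝ) < (D.factorial : ℝ) := by exact_mod_cast Nat.factorial_pos D
  have h2 : Real.log ((D : ℝ) ^ D / (D.factorial : ℝ)) ≤ Real.log (Real.exp D) :=
    Real.log_le_log (by positivity) h1
  rw [Real.log_exp, Real.log_div (by positivity) (by positivity), Real.log_pow] at h2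
  linarith

/-- The averaging argument: if at most `A * X ^ e` elements have size at most `X`, for all `X ≥ 1`,
then the average logarithm of the size is at least `(log |S| - 1 - log A) / e`. -/
theorem sum_log_ge {ι : Type*} (S : Finset ι) (m : ι → ℕ) (A e : ℕ) (hA : 1 ≤ A)
    (hm : ∀ s ∈ S, 1 ≤ m s)
    (hc : ∀ X : ℕ, 1 ≤ X → (S.filter fun s => m s ≤ X).card ≤ A * X ^ e) (he : 1 ≤ e) :
    (S.card : ℝ) * (Real.log S.card - 1 - Real.log A) ≤ e * ∑ s ∈ S, Real.log (m s) := by
  classical
  rcases S.eq_empty_or_nonempty with rfl | hne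
  · simp
  have hcard : 1 ≤ S.card := card_pos.mpr hne
  have h1 : S.card.factorial ≤ ∏ s ∈ S, A * (m s) ^ e := by
    refine factorial_le_prod _ _ S rfl ?_
    intro Y
    by_cases hY : ∃ X, 1 ≤ X ∧ A * X ^ e ≤ Y
    · -- the largest X
      obtain ⟨X, hX1, hX2⟩ := hY
      have hbd : ∀ X, A * X ^ e ≤ Y → X ≤ Y := by
        intro X hX
        calc X ≤ X ^ e := Nat.le_self_pow (by omega) X
          _ ≤ A * X ^ e := Nat.le_mul_of_pos_left _ hA
          _ ≤ Y := hX
      let X0 := Nat.findGreatest (fun X => A * X ^ e ≤ Y) Y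
      have hX0 : A * X0 ^ e ≤ Y := Nat.findGreatest_spec (P := fun X => A * X ^ e ≤ Y) (hbd X hX2) hX2
      have hX0' : 1 ≤ X0 := hX1.trans (Nat.le_findGreatest (hbd X hX2) hX2)
      refine le_trans (card_le_card ?_) ((hc X0 hX0').trans hX0)
      intro s hs
      rw [mem_filter] at hs ⊢
      exact ⟨hs.1, Nat.le_findGreatest (hbd _ hs.2) hs.2⟩
    · have : (S.filter fun s => A * (m s) ^ e ≤ Y) = ∅ := by
        rw [filter_eq_empty_iff]
        intro s hs h
        exact hY ⟨m s, hm s hs, h⟩
      rw [this]; simp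
  have h2 : (S.card.factorial : ℝ) ≤ ∏ s ∈ S, (A * (m s : ℝ) ^ e) := by exact_mod_cast h1
  have hf : (0 : ℝ) < (S.card.factorial : ℝ) := by exact_mod_cast Nat.factorial_pos _
  have hA' : (0 : ℝ) < A := by exact_mod_cast hA
  have h3 := Real.log_le_log hf h2
  rw [Real.log_prod (fun s hs => by
    have : (0 : ℝ) < m s := by exact_mod_cast hm s hs
    positivity)] at h3
  have h4 : ∑ s ∈ S, Real.log (A * (m s : ℝ) ^ e) =
      S.card * Real.log A + e * ∑ s ∈ S, Real.log (m s) := by
    rw [mul_sum]
    rw [show (S.card : ℝ) * Real.log A = ∑ s ∈ S, Real.log A by simp]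
    rw [← sum_add_distrib]
    refine sum_congr rfl fun s hs => ?_
    have : (0 : ℝ) < m s := by exact_mod_cast hm s hs
    rw [Real.log_mul (by positivity) (by positivity), Real.log_pow]
  rw [h4] at h3
  have h5 := log_factorial_ge S.card hcard
  linarith

end Pool.Agent.N590.NA
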