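import Mathlib

set_option autoImplicit false

/-!
# The `N`-adic complexity of finite words
-/

namespace Pool.Agent.N590.NA

/-- The `N`-adic integer `∑ b_i N^i` of the sequence `b` equals the rational number `f / g`, written
in lowest terms with `g > 0`. (Equality of `g * ∑ b_i N^i` and `f` in the ring of `N`-adic integers
means that they are congruent modulo `N^k` for every `k`.) -/
def IsFraction (N : ℕ) (b : ℕ → Fin N) (f g : ℤ) : Prop :=
  0 < g ∧ IsCoprime f g ∧
    ∀ k : ℕ, (N : ℤ) ^ k ∣ g * (∑ i ∈ Finset.range k, ((b i : ℕ) : ℤ) * (N : ℤ) ^ i) - f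

/-- The `N`-adic complexity of the word `w` of length `n`: the minimum of `log_N max(|f|, |g|)` over
all infinite sequences `b` with `b_i = w_i` for `i < n` whose `N`-adic integer is a rational number
`f / g` in lowest terms. -/
noncomputable def complexity (N n : ℕ) (w : Fin n → Fin N) : ℝ :=
  sInf {x : ℝ | ∃ (b : ℕ → Fin N) (f g : ℤ), (∀ i : Fin n, b i = w i) ∧ IsFraction N b f g ∧
    x = Real.logb N ((max |f| |g| : ℤ) : ℝ)}

/-- The average `E_n^fin` of the `N`-adic complexity over all `N ^ n` words of length `n`. -/
noncomputable def average (N n : ℕ) : ℝ :=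
  (∑ w : Fin n → Fin N, complexity N n w) / (N : ℝ) ^ n

end Pool.Agent.N590.NA
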