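import Mathlib
import Pool.Agent.N590.NA.Defs

set_option autoImplicit false

/-!
# Expansions of fractions
-/

namespace Pool.Agent.N590.NA

open Finset

/-- every fraction whose denominator is coprime to `N` has an `N`-adic expansion -/
theorem exists_seq (N : ℕ) (hN : 2 ≤ N) (f g : ℤ) (hg : IsCoprime g (N : ℤ)) :
    ∃ b : ℕ → Fin N, ∀ k : ℕ,
      (N : ℤ) ^ k ∣ g * (∑ i ∈ range k, ((b i : ℕ) : ℤ) * (N : ℤ) ^ i) - f := by
  obtain ⟨h, s, hs⟩ := hg
  have hN0 : (0 : ℤ) < N := by exact_mod_cast (by omega : 0 < N)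
  -- the digit
  let dig : ℤ → Fin N := fun c => ⟨((h * c) % (N : ℤ)).toNat, by
    have h1 := Int.emod_nonneg (h * c) hN0.ne'
    have h2 := Int.emod_lt_of_pos (h * c) hN0
    omega⟩
  have hdig : ∀ c, (((dig c : Fin N) : ℕ) : ℤ) = (h * c) % (N : ℤ) := fun c =>
    Int.toNat_of_nonneg (Int.emod_nonneg (h * c) hN0.ne')
  have hdvd : ∀ c, (N : ℤ) ∣ c - g * ((dig c : Fin N) : ℕ) := by
    intro c
    rw [hdig]
    have h1 : (N : ℤ) ∣ h * c - (h * c) % (N : ℤ) := Int.dvd_self_sub_emod
    have e : c - g * ((h * c) % (N : ℤ)) =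
        g * (h * c - (h * c) % (N : ℤ)) + N * (s * c) := by
      linear_combination (-c) * hs
    rw [e]
    exact dvd_add (Dvd.dvd.mul_left h1 g) (dvd_mul_right _ _)
  let nxt : ℤ → ℤ := fun c => (c - g * ((dig c : Fin N) : ℕ)) / N
  have hnxt : ∀ c, (N : ℤ) * nxt c = c - g * ((dig c : Fin N) : ℕ) := fun c =>
    Int.mul_ediv_cancel' (hdvd c)
  let car : ℕ → ℤ := fun k => nxt^[k] f
  have hcar : ∀ k, car (k + 1) = nxt (car k) := fun k => Function.iterate_succ_apply' nxt k f
  refine ⟨fun k => dig (car k), ?_⟩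
  have main : ∀ k : ℕ, f = g * (∑ i ∈ range k, (((dig (car i) : Fin N) : ℕ) : ℤ) * (N : ℤ) ^ i) +
      (N : ℤ) ^ k * car k := by
    intro k
    induction k with
    | zero => simp [car]
    | succ k ih =>
      rw [sum_range_succ, pow_succ, mul_assoc, hcar, hnxt]
      calc f = g * (∑ i ∈ range k, (((dig (car i) : Fin N) : ℕ) : ℤ) * (N : ℤ) ^ i) +
          (N : ℤ) ^ k * car k := ih
        _ = _ := by ring
  intro k
  refine ⟨-car k, ?_⟩
  linear_combination -(main k)

/-- the integer with digits `w` -/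
def val (N n : ℕ) (w : Fin n → Fin N) : ℕ := ∑ i : Fin n, (w i : ℕ) * N ^ (i : ℕ)

theorem val_lt (N n : ℕ) (w : Fin n → Fin N) : val N n w < N ^ n := by
  have := (finFunctionFinEquiv w).isLt
  rwa [finFunctionFinEquiv_apply] at this

theorem val_injective (N n : ℕ) : Function.Injective (val N n) := by
  intro w w' h
  apply finFunctionFinEquiv.injective
  apply Fin.ext
  rw [finFunctionFinEquiv_apply, finFunctionFinEquiv_apply]
  exact h

theorem val_eq (N n : ℕ) (b : ℕ → Fin N) :
    (val N n (fun i => b i) : ℤ) = ∑ i ∈ range n, ((b i : ℕ) : ℤ) * (N : ℤ) ^ i := by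
  unfold val
  push_cast
  exact Fin.sum_univ_eq_sum_range (fun i => ((b i : ℕ) : ℤ) * (N : ℤ) ^ i) n

/-- a sequence and a word with congruent values -/
theorem digits_eq (N n : ℕ) (b : ℕ → Fin N) (w : Fin n → Fin N)
    (h : ((N ^ n : ℕ) : ℤ) ∣ (∑ i ∈ range n, ((b i : ℕ) : ℤ) * (N : ℤ) ^ i) - val N n w) :
    ∀ i : Fin n, b i = w i := by
  rw [← val_eq] at h
  have h1 := val_lt N n (fun i => b i)
  have h2 := val_lt N n w
  have h3 : (val N n (fun i => b i)) % (N ^ n) = (val N n w) % (N ^ n) := by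
    have := Int.emod_eq_emod_iff_emod_sub_eq_zero.mpr (Int.emod_eq_zero_of_dvd h)
    exact_mod_cast this
  rw [Nat.mod_eq_of_lt h1, Nat.mod_eq_of_lt h2] at h3
  have h4 := val_injective N n h3
  intro i
  exact congrFun h4 i

theorem max_abs_pos (f g : ℤ) (hg : g ≠ 0) : 1 ≤ max |f| |g| := by
  have := abs_pos.mpr hg
  exact le_max_of_le_right this

theorem complexity_bddBelow (N n : ℕ) (w : Fin n → Fin N) (hN : 2 ≤ N) :
    BddBelow {x : ℝ | ∃ (b : ℕ → Fin N) (f g : ℤ), (∀ i : Fin n, b i = w i) ∧ IsFraction N b f g ∧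
      x = Real.logb N ((max |f| |g| : ℤ) : ℝ)} := by
  refine ⟨0, ?_⟩
  rintro x ⟨b, f, g, -, hfr, rfl⟩
  have h1 := max_abs_pos f g hfr.1.ne'
  apply Real.logb_nonneg
  · exact_mod_cast (by omega : 1 < N)
  · exact_mod_cast h1

theorem complexity_le (N n : ℕ) (w : Fin n → Fin N) (hN : 2 ≤ N) (f g : ℤ)
    (hg : IsCoprime g (N : ℤ)) (hd : ((N ^ n : ℕ) : ℤ) ∣ g * val N n w - f) :
    complexity N n w ≤ Real.logb N ((max |f| |g| : ℤ) : ℝ) := by
  have hg0 : g ≠ 0 := by
    rintro rfl
    rw [isCoprime_zero_left, Int.isUnit_iff] at hg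
    omega
  -- the case g > 0
  have key : ∀ f g : ℤ, 0 < g → IsCoprime g (N : ℤ) → ((N ^ n : ℕ) : ℤ) ∣ g * val N n w - f →
      complexity N n w ≤ Real.logb N ((max |f| |g| : ℤ) : ℝ) := by
    intro f g hg0 hg hd
    set d : ℤ := (Int.gcd f g : ℤ) with hd'
    have hdpos : 0 < d := by
      have : 0 < Int.gcd f g := Int.gcd_pos_of_ne_zero_right f hg0.ne'
      omega
    obtain ⟨f', hf'⟩ : d ∣ f := Int.gcd_dvd_left f g
    obtain ⟨g', hg'⟩ : d ∣ g := Int.gcd_dvd_right f g
    have hcop : IsCoprime f' g' := by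
      have h1 : d = gcd f g := rfl
      have h2 := Int.gcd_eq_gcd_ab f g
      refine ⟨Int.gcdA f g, Int.gcdB f g, ?_⟩
      have h3 : d * (Int.gcdA f g * f' + Int.gcdB f g * g') = d * 1 := by
        have e1 : d * (Int.gcdA f g * f' + Int.gcdB f g * g') =
            (d * f') * Int.gcdA f g + (d * g') * Int.gcdB f g := by ring
        rw [e1, ← hf', ← hg', mul_one]
        exact h2.symm
      exact mul_left_cancel₀ hdpos.ne' h3
    have hg'0 : 0 < g' := by
      rw [hg'] at hg0
      exact pos_of_mul_pos_right hg0 hdpos.le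
    have hdN : IsCoprime d (N : ℤ) := by
      rw [hg'] at hg; exact hg.of_mul_left_left
    have hg'N : IsCoprime g' (N : ℤ) := by
      rw [hg'] at hg; exact hg.of_mul_left_right
    have hd2 : ((N ^ n : ℕ) : ℤ) ∣ g' * val N n w - f' := by
      have e : g * val N n w - f = d * (g' * val N n w - f') := by
        rw [hf', hg']; ring
      rw [e] at hd
      have : IsCoprime ((N ^ n : ℕ) : ℤ) d := by
        push_cast
        exact hdN.symm.pow_left
      exact this.dvd_of_dvd_mul_left hd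
    obtain ⟨b, hb⟩ := exists_seq N hN f' g' hg'N
    have hbw : ∀ i : Fin n, b i = w i := by
      apply digits_eq
      have h1 := hb n
      have h2 : ((N ^ n : ℕ) : ℤ) ∣ g' * ((∑ i ∈ range n, ((b i : ℕ) : ℤ) * (N : ℤ) ^ i) -
          val N n w) := by
        have e : g' * ((∑ i ∈ range n, ((b i : ℕ) : ℤ) * (N : ℤ) ^ i) - val N n w) =
          (g' * (∑ i ∈ range n, ((b i : ℕ) : ℤ) * (N : ℤ) ^ i) - f') -
            (g' * val N n w - f') := by ring
        rw [e]
        exact dvd_sub (by push_cast; exact h1) hd2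
      have : IsCoprime ((N ^ n : ℕ) : ℤ) g' := by
        push_cast
        exact hg'N.symm.pow_left
      exact this.dvd_of_dvd_mul_left h2
    have h1 : complexity N n w ≤ Real.logb N ((max |f'| |g'| : ℤ) : ℝ) :=
      csInf_le (complexity_bddBelow N n w hN) ⟨b, f', g', hbw, ⟨hg'0, hcop, hb⟩, rfl⟩
    refine h1.trans ?_
    apply Real.logb_le_logb_of_le
    · exact_mod_cast (by omega : 1 < N)
    · have := max_abs_pos f' g' hg'0.ne'
      exact_mod_cast this
    · have h2 : |f'| ≤ |f| := by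
        rw [hf', abs_mul, abs_of_pos hdpos]
        have := abs_nonneg f'
        nlinarith
      have h3 : |g'| ≤ |g| := by
        rw [hg', abs_mul, abs_of_pos hdpos]
        have := abs_nonneg g'
        nlinarith
      exact_mod_cast max_le_max h2 h3
  rcases lt_or_gt_of_ne hg0 with h | h
  · have := key (-f) (-g) (by omega) hg.neg_left (by
      have e : -g * (val N n w : ℤ) - -f = -(g * val N n w - f) := by ring
      rw [e, dvd_neg]; exact hd)
    rwa [abs_neg, abs_neg] at this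
  · exact key f g h hg hd

theorem le_complexity (N n : ℕ) (w : Fin n → Fin N) (hN : 2 ≤ N) (c : ℝ)
    (hc : ∀ f g : ℤ, 0 < g → ((N ^ n : ℕ) : ℤ) ∣ g * val N n w - f →
      c ≤ Real.logb N ((max |f| |g| : ℤ) : ℝ)) :
    c ≤ complexity N n w := by
  refine le_csInf ?_ ?_
  · -- nonempty: the fraction `val w / 1`
    obtain ⟨b, hb⟩ := exists_seq N hN (val N n w) 1 isCoprime_one_left
    refine ⟨_, b, val N n w, 1, ?_, ⟨one_pos, isCoprime_one_right, hb⟩, rfl⟩
    apply digits_eq
    have := hb n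
    rw [one_mul] at this
    push_cast at this ⊢
    exact this
  · rintro x ⟨b, f, g, hbw, hfr, rfl⟩
    refine hc f g hfr.1 ?_
    have h1 := hfr.2.2 n
    have h2 : val N n w = val N n (fun i => b i) := by
      congr 1
      funext i
      exact (hbw i).symm
    rw [h2, val_eq]
    push_cast
    exact h1

end Pool.Agent.N590.NA
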