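import Mathlib

set_option autoImplicit false

/-!
# Among `2 ^ ω(N)` consecutive terms `u + k v`, `gcd(u, v) = 1`, one is coprime to `N`
-/

namespace Pool.Agent.N590.NA

open Finset Polynomial

/-- a sum of `h` exponentials which vanishes at `h` consecutive integers vanishes at all later
ones -/
theorem exp_sum_zero {ι : Type*} (S : Finset ι) (c : ι → ℂ) (w : ι → ℂ)
    (h0 : ∀ k < S.card, ∑ i ∈ S, c i * w i ^ k = 0) :
    ∀ k, ∑ i ∈ S, c i * w i ^ k = 0 := by
  classical
  set P : ℂ[X] := ∏ i ∈ S, (X - C (w i)) with hP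
  have hmon : P.Monic := monic_prod_of_monic _ _ fun i _ => monic_X_sub_C _
  have hdeg : P.natDegree = S.card := by
    rw [hP, natDegree_prod_of_monic _ _ fun i _ => monic_X_sub_C _]
    simp
  have hroot : ∀ i ∈ S, P.eval (w i) = 0 := by
    intro i hi
    rw [hP, eval_prod]
    exact prod_eq_zero hi (by simp)
  intro k
  induction k using Nat.strong_induction_on with
  | _ k ih =>
    by_cases hk : k < S.card
    · exact h0 k hk
    · push Not at hk
      obtain ⟨j, rfl⟩ := Nat.exists_eq_add_of_le hk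
      have h1 : ∑ t ∈ range (P.natDegree + 1), P.coeff t * ∑ i ∈ S, c i * w i ^ (j + t) = 0 := by
        simp_rw [mul_sum]
        rw [sum_comm]
        refine sum_eq_zero fun i hi => ?_
        have h2 := hroot i hi
        rw [eval_eq_sum_range] at h2
        calc ∑ t ∈ range (P.natDegree + 1), P.coeff t * (c i * w i ^ (j + t))
            = (c i * w i ^ j) * ∑ t ∈ range (P.natDegree + 1), P.coeff t * w i ^ t := by
              rw [mul_sum]
              refine sum_congr rfl fun t _ => ?_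
              rw [pow_add]; ring
          _ = 0 := by rw [h2, mul_zero]
      rw [sum_range_succ, hmon.coeff_natDegree, one_mul, hdeg] at h1
      have h3 : ∑ t ∈ range S.card, P.coeff t * ∑ i ∈ S, c i * w i ^ (j + t) = 0 := by
        refine sum_eq_zero fun t ht => ?_
        rw [mem_range] at ht
        rw [ih (j + t) (by omega), mul_zero]
      rw [h3, zero_add, add_comm j] at h1
      exact h1

theorem exists_coprime_far (N : ℕ) (hN : 1 ≤ N) (u v : ℤ) (huv : IsCoprime u v) :
    ∃ k : ℕ, ∀ p ∈ N.primeFactors, ¬ (p : ℤ) ∣ u + k * v := by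
  classical
  refine ⟨∏ p ∈ N.primeFactors.filter (fun p : ℕ => ¬ (p : ℤ) ∣ u), p, ?_⟩
  intro p hp hdvd
  have hpp : p.Prime := Nat.prime_of_mem_primeFactors hp
  have hpi : Prime (p : ℤ) := Nat.prime_iff_prime_int.mp hpp
  by_cases hu : (p : ℤ) ∣ u
  · have h1 : (p : ℤ) ∣ ((∏ p ∈ N.primeFactors.filter (fun p : ℕ => ¬ (p : ℤ) ∣ u), p : ℕ) : ℤ) * v :=
      (dvd_add_right hu).mp hdvd
    rcases hpi.dvd_or_dvd h1 with h2 | h2
    · rw [Int.natCast_dvd_natCast, hpp.prime.dvd_finsetProd_iff] at h2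
      obtain ⟨q, hq, hpq⟩ := h2
      rw [mem_filter] at hq
      have hqp : q.Prime := Nat.prime_of_mem_primeFactors hq.1
      have : p = q := (Nat.prime_dvd_prime_iff_eq hpp hqp).mp hpq
      subst this
      exact hq.2 hu
    · have := huv.isUnit_of_dvd' hu h2
      exact hpi.not_isUnit this
  · have h1 : (p : ℤ) ∣ ((∏ p ∈ N.primeFactors.filter (fun p : ℕ => ¬ (p : ℤ) ∣ u), p : ℕ) : ℤ) * v := by
      apply Dvd.dvd.mul_right
      rw [Int.natCast_dvd_natCast]
      exact dvd_prod_of_mem _ (mem_filter.mpr ⟨hp, hu⟩)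
    exact hu ((dvd_add_left h1).mp hdvd)

theorem exists_coprime (N : ℕ) (hN : 1 ≤ N) (u v : ℤ) (huv : IsCoprime u v) :
    ∃ k : ℕ, k < 2 ^ N.primeFactors.card ∧ IsCoprime (u + k * v) (N : ℤ) := by
  classical
  -- roots of unity
  let z : ℕ → ℂ := fun p => Complex.exp (2 * Real.pi * Complex.I / p)
  have hz : ∀ p ∈ N.primeFactors, IsPrimitiveRoot (z p) p := fun p hp =>
    Complex.isPrimitiveRoot_exp p (Nat.prime_of_mem_primeFactors hp).ne_zero
  have hz0 : ∀ p, z p ≠ 0 := fun p => Complex.exp_ne_zero _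
  let F : ℕ → ℂ := fun k => ∏ p ∈ N.primeFactors, (1 + -(z p ^ (u + k * v)))
  have hF : ∀ k, F k = 0 ↔ ∃ p ∈ N.primeFactors, (p : ℤ) ∣ u + k * v := by
    intro k
    rw [prod_eq_zero_iff]
    constructor
    · rintro ⟨p, hp, h⟩
      refine ⟨p, hp, ?_⟩
      rw [← (hz p hp).zpow_eq_one_iff_dvd]
      linear_combination -h
    · rintro ⟨p, hp, h⟩
      refine ⟨p, hp, ?_⟩
      rw [← (hz p hp).zpow_eq_one_iff_dvd] at h
      rw [h]; ring
  have hexp : ∀ k, F k = ∑ T ∈ N.primeFactors.powerset,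
      (∏ p ∈ N.primeFactors \ T, (-(z p ^ u))) * (∏ p ∈ N.primeFactors \ T, z p ^ v) ^ k := by
    intro k
    simp only [F]
    rw [prod_add]
    refine sum_congr rfl fun T _ => ?_
    rw [prod_const_one, one_mul, ← prod_pow, ← prod_mul_distrib]
    refine prod_congr rfl fun p _ => ?_
    rw [zpow_add₀ (hz0 p), ← zpow_natCast, ← zpow_mul, mul_comm v]
    ring
  by_contra hcon
  push Not at hcon
  have hco : ∀ k : ℕ, (∀ p ∈ N.primeFactors, ¬ (p : ℤ) ∣ u + k * v) →
      IsCoprime (u + k * v) (N : ℤ) := by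
    intro k hk
    rw [Int.isCoprime_iff_gcd_eq_one]
    by_contra hne
    obtain ⟨p, hp, hpd⟩ := Nat.exists_prime_and_dvd hne
    have h1 : (p : ℤ) ∣ u + k * v := (Int.natCast_dvd_natCast.mpr hpd).trans (Int.gcd_dvd_left _ _)
    have h2 : (p : ℤ) ∣ N := (Int.natCast_dvd_natCast.mpr hpd).trans (Int.gcd_dvd_right _ _)
    rw [Int.natCast_dvd_natCast] at h2
    exact hk p (Nat.mem_primeFactors.mpr ⟨hp, h2, by omega⟩) h1
  have hzero : ∀ k < (N.primeFactors.powerset).card, F k = 0 := by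
    intro k hk
    rw [card_powerset] at hk
    rw [hF]
    by_contra h
    push Not at h
    exact hcon k hk (hco k h)
  have hall : ∀ k, F k = 0 := by
    intro k
    rw [hexp]
    refine exp_sum_zero N.primeFactors.powerset _ _ ?_ k
    intro k hk
    rw [← hexp]
    exact hzero k hk
  obtain ⟨k, hk⟩ := exists_coprime_far N hN u v huv
  obtain ⟨p, hp, hpd⟩ := (hF k).mp (hall k)
  exact hk p hp hpd

end Pool.Agent.N590.NA
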