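import Mathlib
import Pool.Agent.N590.NA.Jac

set_option autoImplicit false

/-!
# Short vectors in the lattices `{(f, g) | f = g a mod D}`
-/

namespace Pool.Agent.N590.NA

open Finset

/-- the least sup norm of a nonzero vector `(f, g)` with `g a ≡ f mod D` -/
noncomputable def short (D : ℕ) (a : ℤ) : ℕ :=
  sInf {m : ℕ | ∃ f g : ℤ, (f ≠ 0 ∨ g ≠ 0) ∧ (D : ℤ) ∣ g * a - f ∧ |f| ≤ m ∧ |g| ≤ m}

theorem short_spec (D : ℕ) (hD : 1 ≤ D) (a : ℤ) :
    ∃ f g : ℤ, (f ≠ 0 ∨ g ≠ 0) ∧ (D : ℤ) ∣ g * a - f ∧ |f| ≤ short D a ∧ |g| ≤ short D a := by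
  have hne : {m : ℕ | ∃ f g : ℤ, (f ≠ 0 ∨ g ≠ 0) ∧ (D : ℤ) ∣ g * a - f ∧ |f| ≤ m ∧
      |g| ≤ m}.Nonempty := by
    refine ⟨D, D, 0, Or.inl (by positivity), ⟨-1, by ring⟩, ?_, ?_⟩
    · simp
    · simp
  exact Nat.sInf_mem hne

theorem short_le (D : ℕ) (a f g : ℤ) (m : ℕ) (h0 : f ≠ 0 ∨ g ≠ 0) (h1 : (D : ℤ) ∣ g * a - f)
    (h2 : |f| ≤ m) (h3 : |g| ≤ m) : short D a ≤ m :=
  Nat.sInf_le ⟨f, g, h0, h1, h2, h3⟩

theorem short_pos (D : ℕ) (hD : 1 ≤ D) (a : ℤ) : 1 ≤ short D a := by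
  obtain ⟨f, g, h0, -, h2, h3⟩ := short_spec D hD a
  by_contra h
  have h4 : short D a = 0 := by omega
  rw [h4] at h2 h3
  have h5 : f = 0 := abs_eq_zero.mp (le_antisymm (by simpa using h2) (abs_nonneg f))
  have h6 : g = 0 := abs_eq_zero.mp (le_antisymm (by simpa using h3) (abs_nonneg g))
  rcases h0 with h | h
  · exact h h5
  · exact h h6

/-- Thue's lemma -/
theorem short_sq_le (D : ℕ) (hD : 1 ≤ D) (a : ℤ) : short D a ^ 2 ≤ D := by
  set r := Nat.sqrt D with hr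
  have h1 : r * r ≤ D := Nat.sqrt_le D
  have h2 : D < (r + 1) * (r + 1) := Nat.lt_succ_sqrt D
  haveI : NeZero D := ⟨by omega⟩
  let S : Finset (ℕ × ℕ) := range (r + 1) ×ˢ range (r + 1)
  let φ : ℕ × ℕ → ZMod D := fun p => (p.2 : ZMod D) * (a : ZMod D) - (p.1 : ZMod D)
  have hcard : (univ : Finset (ZMod D)).card < S.card := by
    simp only [S, card_product, card_range, card_univ, ZMod.card]
    exact h2
  obtain ⟨p, hp, q, hq, hpq, heq⟩ := exists_ne_map_eq_of_card_lt_of_maps_to hcard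
    (f := φ) (fun x _ => mem_univ (φ x))
  rw [mem_product, mem_range, mem_range] at hp hq
  have h3 : (D : ℤ) ∣ ((p.2 : ℤ) - q.2) * a - ((p.1 : ℤ) - q.1) := by
    rw [← ZMod.intCast_zmod_eq_zero_iff_dvd]
    push_cast
    simp only [φ] at heq
    linear_combination heq
  have h4 : short D a ≤ r := by
    refine short_le D a ((p.1 : ℤ) - q.1) ((p.2 : ℤ) - q.2) r ?_ h3 ?_ ?_
    · by_contra hcon
      push Not at hcon
      apply hpq
      ext
      · have := hcon.1; omega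
      · have := hcon.2; omega
    · rw [abs_le]; constructor <;> omega
    · rw [abs_le]; constructor <;> omega
  calc short D a ^ 2 ≤ r ^ 2 := Nat.pow_le_pow_left h4 2
    _ = r * r := by ring
    _ ≤ D := h1

/-- a shortest vector is part of a basis -/
theorem basis (D : ℕ) (hD : 1 ≤ D) (a : ℤ) :
    ∃ f₁ g₁ f₂ g₂ : ℤ, (D : ℤ) ∣ g₁ * a - f₁ ∧ (D : ℤ) ∣ g₂ * a - f₂ ∧
      f₁ * g₂ - g₁ * f₂ = D ∧ IsCoprime g₂ g₁ ∧ |f₁| ≤ short D a ∧ |g₁| ≤ short D a ∧
      (|f₁| = short D a ∨ |g₁| = short D a) := by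
  obtain ⟨f, g, h0, ⟨x, hx⟩, h2, h3⟩ := short_spec D hD a
  have hDz : (D : ℤ) ≠ 0 := by positivity
  -- f = g a - D x
  have hf : f = g * a - D * x := by linarith
  -- the pair (x, g) is coprime
  have hcop : IsCoprime x g := by
    rw [Int.isCoprime_iff_gcd_eq_one]
    by_contra hne
    have hd0 : Int.gcd x g ≠ 0 := by
      intro h
      rw [Int.gcd_eq_zero_iff] at h
      rw [h.1, h.2] at hf
      rcases h0 with h' | h'
      · exact h' (by simpa using hf)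
      · exact h' h.2
    obtain ⟨x', hx'⟩ := Int.gcd_dvd_left x g
    obtain ⟨g', hg'⟩ := Int.gcd_dvd_right x g
    set d := Int.gcd x g with hd
    have hd2 : 2 ≤ d := by omega
    have hff : f = d * (g' * a - D * x') := by
      rw [hf, hx', hg']; ring
    have hdz : (2 : ℤ) ≤ d := by exact_mod_cast hd2
    have hle : short D a ≤ short D a / 2 := by
      refine short_le D a (g' * a - D * x') g' _ ?_ ⟨x', by ring⟩ ?_ ?_
      · by_contra hcon
        push Not at hcon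
        rcases h0 with h' | h'
        · exact h' (by rw [hff, hcon.1, mul_zero])
        · exact h' (by rw [hg', hcon.2, mul_zero])
      · rw [hff, abs_mul, Nat.abs_cast] at h2
        have : 0 ≤ |g' * a - D * x'| := abs_nonneg _
        have h4 : 2 * |g' * a - D * x'| ≤ short D a := by nlinarith
        omega
      · rw [hg', abs_mul, Nat.abs_cast] at h3
        have : 0 ≤ |g'| := abs_nonneg _
        have h4 : 2 * |g'| ≤ short D a := by nlinarith
        omega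
    have hpos := short_pos D hD a
    omega
  obtain ⟨u, v, huv⟩ := hcop
  -- u x + v g = 1;   w = (f₂, g₂) with  g₂ = -u... 
  -- f g₂ - g f₂ = D with f₂ = g₂ a - D y: f g₂ - g f₂ = -D x g₂ + D y g = D (y g - x g₂)
  refine ⟨f, g, -u * a - D * v, -u, ⟨x, hx⟩, ⟨v, by ring⟩, ?_, ?_, h2, h3, ?_⟩
  · rw [hf]
    linear_combination (D : ℤ) * huv
  · exact ⟨-x, v, by linear_combination huv⟩
  · by_contra hcon
    push Not at hcon
    have h4 : |f| < short D a := lt_of_le_of_ne h2 hcon.1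
    have h5 : |g| < short D a := lt_of_le_of_ne h3 hcon.2
    have hpos := short_pos D hD a
    have : short D a ≤ short D a - 1 := by
      refine short_le D a f g _ h0 ⟨x, hx⟩ ?_ ?_
      · omega
      · omega
    omega

theorem pick (N : ℕ) (hN : 1 ≤ N) (g₁ g₂ : ℤ) (h : IsCoprime g₂ g₁) (x : ℝ) :
    ∃ t : ℤ, |(t : ℝ) - x| ≤ (2 : ℝ) ^ N.primeFactors.card / 2 ∧ IsCoprime (g₂ + t * g₁) (N : ℤ) := by
  set H : ℝ := (2 : ℝ) ^ N.primeFactors.card with hH
  set s : ℤ := ⌈x - H / 2⌉ with hs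
  have hco : IsCoprime (g₂ + s * g₁) g₁ := by
    have := h.add_mul_right_left s
    rwa [mul_comm] at this ⊢
  obtain ⟨k, hk, hk2⟩ := exists_coprime N hN (g₂ + s * g₁) g₁ hco
  refine ⟨s + k, ?_, ?_⟩
  · have h1 : x - H / 2 ≤ s := Int.le_ceil _
    have h2 : (s : ℝ) < x - H / 2 + 1 := Int.ceil_lt_add_one _
    have h3 : (k : ℝ) + 1 ≤ H := by
      rw [hH]; exact_mod_cast hk
    have h4 : (0 : ℝ) ≤ k := by positivity
    rw [abs_le]
    push_cast
    constructor <;> linarith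
  · have e : g₂ + (s + (k : ℤ)) * g₁ = g₂ + s * g₁ + k * g₁ := by ring
    rw [e]; exact hk2

theorem exists_good (N D : ℕ) (hN : 2 ≤ N) (hD : 1 ≤ D) (a : ℤ) :
    ∃ f g : ℤ, IsCoprime g (N : ℤ) ∧ (D : ℤ) ∣ g * a - f ∧
      ((max |f| |g| : ℤ) : ℝ) * short D a ≤ 2 ^ N.primeFactors.card * (D : ℝ) := by
  obtain ⟨f₁, g₁, f₂, g₂, h1, h2, hdet, hco, hf, hg, hmax⟩ := basis D hD a
  set m := short D a with hm
  set H : ℝ := (2 : ℝ) ^ N.primeFactors.card with hH
  have hH2 : 2 ≤ H := by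
    rw [hH]
    have : 1 ≤ N.primeFactors.card := by
      rw [Nat.one_le_iff_ne_zero, card_ne_zero]
      exact Nat.nonempty_primeFactors.mpr (by omega)
    calc (2 : ℝ) = 2 ^ 1 := by norm_num
      _ ≤ 2 ^ N.primeFactors.card := pow_le_pow_right₀ (by norm_num) this
  have hm1 : 1 ≤ m := short_pos D hD a
  have hm1' : (1 : ℝ) ≤ m := by exact_mod_cast hm1
  have hmD : (m : ℝ) * m ≤ D := by
    have := short_sq_le D hD a
    rw [sq] at this
    exact_mod_cast this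
  have hf' : |(f₁ : ℝ)| ≤ m := by exact_mod_cast hf
  have hg' : |(g₁ : ℝ)| ≤ m := by exact_mod_cast hg
  have hdet' : (f₁ : ℝ) * g₂ - g₁ * f₂ = D := by exact_mod_cast hdet
  have hDpos : (0 : ℝ) < D := by exact_mod_cast hD
  -- general estimate
  have key : ∀ (y τ z : ℝ), |y| = m → |z| ≤ m → |τ| ≤ H / 2 → |D / y + τ * z| * m ≤ H * D := by
    intro y τ z hy hz hτ
    have h3 : |D / y + τ * z| ≤ D / m + H / 2 * m := by
      calc |D / y + τ * z| ≤ |D / y| + |τ * z| := abs_add_le _ _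
        _ = D / m + |τ| * |z| := by
            rw [abs_div, hy, abs_mul, abs_of_pos hDpos]
        _ ≤ D / m + H / 2 * m := by
            gcongr
    calc |D / y + τ * z| * m ≤ (D / m + H / 2 * m) * m := by gcongr
      _ = D + H / 2 * (m * m) := by field_simp
      _ ≤ D + H / 2 * D := by gcongr
      _ ≤ H * D := by nlinarith
  have key2 : ∀ (τ z : ℝ), |z| ≤ m → |τ| ≤ H / 2 → |τ * z| * m ≤ H * D := by
    intro τ z hz hτ
    calc |τ * z| * m = |τ| * |z| * m := by rw [abs_mul]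
      _ ≤ H / 2 * m * m := by gcongr
      _ = H / 2 * (m * m) := by ring
      _ ≤ H / 2 * D := by gcongr
      _ ≤ H * D := by nlinarith
  rcases hmax with hmax | hmax
  · -- |f₁| = m
    have hfm : |(f₁ : ℝ)| = m := by exact_mod_cast hmax
    have hf0 : (f₁ : ℝ) ≠ 0 := by
      intro h; rw [h, abs_zero] at hfm; linarith
    obtain ⟨t, ht, htc⟩ := pick N (by omega) g₁ g₂ hco (-(f₂ : ℝ) / f₁)
    refine ⟨f₂ + t * f₁, g₂ + t * g₁, htc, ?_, ?_⟩
    · have : (g₂ + t * g₁) * a - (f₂ + t * f₁) = (g₂ * a - f₂) + t * (g₁ * a - f₁) := by ring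
      rw [this]; exact dvd_add h2 (Dvd.dvd.mul_left h1 t)
    · set τ : ℝ := (t : ℝ) - -(f₂ : ℝ) / f₁ with hτ
      have e1 : (f₂ : ℝ) + t * f₁ = τ * f₁ := by rw [hτ]; field_simp; ring
      have e2 : (g₂ : ℝ) + t * g₁ = D / f₁ + τ * g₁ := by
        rw [hτ]; field_simp; linear_combination hdet'
      push_cast
      rw [e1, e2, max_mul_of_nonneg _ _ (by positivity)]
      exact max_le (key2 τ _ hfm.le ht) (key _ τ _ hfm hg' ht)
  · -- |g₁| = m
    have hgm : |(g₁ : ℝ)| = m := by exact_mod_cast hmax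
    have hg0 : (g₁ : ℝ) ≠ 0 := by
      intro h; rw [h, abs_zero] at hgm; linarith
    obtain ⟨t, ht, htc⟩ := pick N (by omega) g₁ g₂ hco (-(g₂ : ℝ) / g₁)
    refine ⟨f₂ + t * f₁, g₂ + t * g₁, htc, ?_, ?_⟩
    · have : (g₂ + t * g₁) * a - (f₂ + t * f₁) = (g₂ * a - f₂) + t * (g₁ * a - f₁) := by ring
      rw [this]; exact dvd_add h2 (Dvd.dvd.mul_left h1 t)
    · set τ : ℝ := (t : ℝ) - -(g₂ : ℝ) / g₁ with hτ
      have e1 : (g₂ : ℝ) + t * g₁ = τ * g₁ := by rw [hτ]; field_simp; ring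
      have e2 : (f₂ : ℝ) + t * f₁ = D / (-(g₁ : ℝ)) + τ * f₁ := by
        rw [hτ]; field_simp; linear_combination -hdet'
      push_cast
      rw [e1, e2, max_mul_of_nonneg _ _ (by positivity)]
      exact max_le (key _ τ _ (by rw [abs_neg, hgm]) hf' ht) (key2 τ _ hgm.le ht)

end Pool.Agent.N590.NA
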