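import Mathlib
import Pool.Agent.N590.NA.Latt

set_option autoImplicit false

/-!
# The number of lattices with a short vector
-/

namespace Pool.Agent.N590.NA

open Finset

theorem card_fixed (D : ℕ) (hD : 1 ≤ D) (X g : ℕ) (hg : 1 ≤ g) (hgX : g ≤ X) (A : Finset ℕ)
    (hA : ∀ a ∈ A, a < D ∧ ∃ f : ℤ, |f| ≤ X ∧ (D : ℤ) ∣ (g : ℤ) * a - f) : A.card ≤ 3 * X := by
  classical
  set k := Nat.gcd g D with hk
  have hk0 : 0 < k := Nat.gcd_pos_of_pos_left D hg
  obtain ⟨g', hg'⟩ : k ∣ g := Nat.gcd_dvd_left g D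
  obtain ⟨D', hD'⟩ : k ∣ D := Nat.gcd_dvd_right g D
  have hcop : Nat.Coprime g' D' := by
    have := Nat.coprime_div_gcd_div_gcd (m := g) (n := D) (by rw [← hk]; exact hk0)
    rw [← hk] at this
    rwa [show g / k = g' by rw [hg']; exact Nat.mul_div_cancel_left _ hk0,
      show D / k = D' by rw [hD']; exact Nat.mul_div_cancel_left _ hk0] at this
  have hD'0 : 0 < D' := by
    rcases Nat.eq_zero_or_pos D' with h | h
    · rw [h, mul_zero] at hD'; omega
    · exact h
  have hch : ∀ a ∈ A, ∃ f' : ℤ, |f'| ≤ ((X / k : ℕ) : ℤ) ∧ (D : ℤ) ∣ (g : ℤ) * a - k * f' := by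
    intro a ha
    obtain ⟨-, f, hf, hfd⟩ := hA a ha
    have h1 : (k : ℤ) ∣ f := by
      have h2 : (k : ℤ) ∣ (g : ℤ) * a - f := (Int.natCast_dvd_natCast.mpr ⟨D', hD'⟩).trans hfd
      have h3 : (k : ℤ) ∣ (g : ℤ) * a := Dvd.dvd.mul_right (Int.natCast_dvd_natCast.mpr ⟨g', hg'⟩) _
      have := dvd_sub h3 h2
      rwa [sub_sub_cancel] at this
    obtain ⟨f', rfl⟩ := h1
    refine ⟨f', ?_, hfd⟩
    rw [abs_mul, Nat.abs_cast] at hf
    have hkz : (0 : ℤ) < k := by exact_mod_cast hk0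
    push_cast
    rw [Int.le_ediv_iff_mul_le hkz]
    linarith
  choose! F hF1 hF2 using hch
  let T : Finset (ℤ × ℕ) := Icc (-((X / k : ℕ) : ℤ)) ((X / k : ℕ) : ℤ) ×ˢ range k
  have hcard : T.card ≤ 3 * X := by
    simp only [T, card_product, Int.card_Icc, card_range]
    have h1 : (((X / k : ℕ) : ℤ) + 1 - -((X / k : ℕ) : ℤ)).toNat = 2 * (X / k) + 1 := by omega
    rw [h1]
    have h2 : X / k * k ≤ X := Nat.div_mul_le_self X k
    have h3 : k ≤ X := (Nat.le_of_dvd hg ⟨g', hg'⟩).trans hgX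
    nlinarith
  refine le_trans (card_le_card_of_injOn (fun a => (F a, a / D')) ?_ ?_) hcard
  · intro a ha
    have ha' : a ∈ A := ha
    simp only [T, coe_product, Set.mem_prod, mem_coe, mem_Icc, mem_range]
    refine ⟨abs_le.mp (hF1 a ha'), ?_⟩
    rw [Nat.div_lt_iff_lt_mul hD'0, ← hD']
    exact (hA a ha').1
  · intro a ha b hb hab
    have ha' : a ∈ A := ha
    have hb' : b ∈ A := hb
    simp only [Prod.mk.injEq] at hab
    obtain ⟨h1, h2⟩ := hab
    have h3 : (D : ℤ) ∣ (g : ℤ) * ((a : ℤ) - b) := by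
      have := dvd_sub (hF2 a ha') (hF2 b hb')
      rw [h1] at this
      have e : (g : ℤ) * a - k * F b - ((g : ℤ) * b - k * F b) = (g : ℤ) * ((a : ℤ) - b) := by ring
      rwa [e] at this
    have h4 : (D' : ℤ) ∣ (a : ℤ) - b := by
      rw [hD', hg'] at h3
      push_cast at h3
      rw [mul_assoc] at h3
      have hkz : (k : ℤ) ≠ 0 := by positivity
      have h5 := (mul_dvd_mul_iff_left hkz).mp h3
      exact (Nat.isCoprime_iff_coprime.mpr hcop.symm).dvd_of_dvd_mul_left h5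
    have h5 : a % D' = b % D' := by
      have := Int.emod_emod_of_dvd
      have h6 : (a : ℤ) % D' = (b : ℤ) % D' := Int.emod_eq_emod_iff_emod_sub_eq_zero.mpr
        (Int.emod_eq_zero_of_dvd h4)
      exact_mod_cast h6
    rw [← Nat.div_add_mod a D', ← Nat.div_add_mod b D', h2, h5]

theorem card_short (D : ℕ) (hD : 1 ≤ D) (X : ℕ) (hX : 1 ≤ X) :
    ((range D).filter fun a : ℕ => short D (a : ℤ) ≤ X).card ≤ 3 * X ^ 2 := by
  classical
  by_cases hXD : D ≤ X
  · calc ((range D).filter fun a : ℕ => short D (a : ℤ) ≤ X).card ≤ (range D).card := card_filter_le _ _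
      _ = D := card_range D
      _ ≤ 3 * X ^ 2 := by nlinarith
  push Not at hXD
  let A : ℕ → Finset ℕ := fun g => (range D).filter fun a : ℕ =>
    ∃ f : ℤ, |f| ≤ X ∧ (D : ℤ) ∣ (g : ℤ) * a - f
  have hsub : ((range D).filter fun a : ℕ => short D (a : ℤ) ≤ X) ⊆ (Icc 1 X).biUnion A := by
    intro a ha
    rw [mem_filter] at ha
    obtain ⟨f, g, h0, h1, h2, h3⟩ := short_spec D hD (a : ℤ)
    have h2' : |f| ≤ X := h2.trans (by exact_mod_cast ha.2)
    have h3' : |g| ≤ X := h3.trans (by exact_mod_cast ha.2)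
    have hg : g ≠ 0 := by
      rintro rfl
      rw [zero_mul, zero_sub, dvd_neg] at h1
      have hf : f ≠ 0 := by
        rcases h0 with h | h
        · exact h
        · exact absurd rfl h
      have := Int.le_of_dvd (abs_pos.mpr hf) ((dvd_abs _ _).mpr h1)
      omega
    rw [mem_biUnion]
    rcases lt_or_gt_of_ne hg with hneg | hpos
    · refine ⟨g.natAbs, ?_, ?_⟩
      · rw [mem_Icc]; have h3'' := abs_le.mp h3'; omega
      · rw [mem_filter]
        refine ⟨ha.1, -f, by rwa [abs_neg], ?_⟩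
        have e : ((g.natAbs : ℕ) : ℤ) = -g := by omega
        rw [e]
        have : -g * (a : ℤ) - -f = -(g * a - f) := by ring
        rw [this, dvd_neg]; exact h1
    · refine ⟨g.natAbs, ?_, ?_⟩
      · rw [mem_Icc]; have h3'' := abs_le.mp h3'; omega
      · rw [mem_filter]
        refine ⟨ha.1, f, h2', ?_⟩
        have e : ((g.natAbs : ℕ) : ℤ) = g := by omega
        rw [e]; exact h1
  calc ((range D).filter fun a : ℕ => short D (a : ℤ) ≤ X).card ≤ ((Icc 1 X).biUnion A).card :=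
        card_le_card hsub
    _ ≤ ∑ g ∈ Icc 1 X, (A g).card := card_biUnion_le
    _ ≤ ∑ g ∈ Icc 1 X, 3 * X := by
        refine sum_le_sum fun g hg => ?_
        rw [mem_Icc] at hg
        refine card_fixed D hD X g hg.1 hg.2 (A g) ?_
        intro a ha
        simp only [A, mem_filter, mem_range] at ha
        exact ha
    _ = 3 * X ^ 2 := by
        rw [sum_const, Nat.card_Icc, smul_eq_mul, Nat.add_sub_cancel]; ring

end Pool.Agent.N590.NA
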