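import Mathlib
import Pool.Agent.N590.NA.Short
import Pool.Agent.N590.NA.Digits
import Pool.Agent.N590.NA.Count

set_option autoImplicit false

/-!
# The average `N`-adic complexity of finite words
-/

namespace Pool.Agent.N590.NA

open Finset

/-- the length of a shortest vector in the lattice of the word `w` -/
noncomputable def sh (N n : ℕ) (w : Fin n → Fin N) : ℕ := short (N ^ n) (val N n w)

theorem sh_pos (N n : ℕ) (hN : 2 ≤ N) (w : Fin n → Fin N) : 1 ≤ sh N n w :=
  short_pos _ (Nat.one_le_pow _ _ (by omega)) _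

theorem sum_log_sh (N n : ℕ) (hN : 2 ≤ N) :
    ((N : ℝ) ^ n) * (n * Real.log N - 1 - Real.log 3) ≤
      2 * ∑ w : Fin n → Fin N, Real.log (sh N n w) := by
  classical
  have h := sum_log_ge (univ : Finset (Fin n → Fin N)) (sh N n) 3 2 (by norm_num)
    (fun w _ => sh_pos N n hN w) ?_ (by norm_num)
  · have hc : (univ : Finset (Fin n → Fin N)).card = N ^ n := by simp
    rw [hc] at h
    push_cast at h
    rw [Real.log_pow] at h
    exact h
  · intro X hX
    refine le_trans ?_ (card_short (N ^ n) (Nat.one_le_pow _ _ (by omega)) X hX)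
    refine card_le_card_of_injOn (val N n) ?_ (fun a _ b _ h => val_injective N n h)
    intro w hw
    have hw' : w ∈ univ.filter fun s => sh N n s ≤ X := hw
    rw [mem_filter] at hw'
    have : val N n w ∈ (range (N ^ n)).filter fun a : ℕ => short (N ^ n) (a : ℤ) ≤ X := by
      rw [mem_filter, mem_range]
      exact ⟨val_lt N n w, hw'.2⟩
    exact this

theorem lower_word (N n : ℕ) (hN : 2 ≤ N) (w : Fin n → Fin N) :
    Real.log (sh N n w) / Real.log N ≤ complexity N n w := by
  apply le_complexity N n w hN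
  intro f g hg hd
  have h1 : (sh N n w : ℤ) ≤ max |f| |g| := by
    have h0 : (0 : ℤ) ≤ max |f| |g| := le_max_of_le_left (abs_nonneg f)
    have := short_le (N ^ n) (val N n w) f g (max |f| |g|).toNat (Or.inr hg.ne') hd
      (by rw [Int.toNat_of_nonneg h0]; exact le_max_left _ _)
      (by rw [Int.toNat_of_nonneg h0]; exact le_max_right _ _)
    unfold sh
    omega
  have h2 : (1 : ℝ) ≤ sh N n w := by exact_mod_cast sh_pos N n hN w
  have hlN : 0 < Real.log N := Real.log_pos (by exact_mod_cast (by omega : 1 < N))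
  rw [Real.logb]
  gcongr
  exact_mod_cast h1

theorem upper_word (N n : ℕ) (hN : 2 ≤ N) (w : Fin n → Fin N) :
    complexity N n w ≤
      (N.primeFactors.card * Real.log 2 + n * Real.log N - Real.log (sh N n w)) / Real.log N := by
  obtain ⟨f, g, hg, hd, hb⟩ := exists_good N (N ^ n) hN (Nat.one_le_pow _ _ (by omega)) (val N n w)
  have h1 := complexity_le N n w hN f g hg hd
  refine h1.trans ?_
  have hlN : 0 < Real.log N := Real.log_pos (by exact_mod_cast (by omega : 1 < N))
  have hs : (1 : ℝ) ≤ sh N n w := by exact_mod_cast sh_pos N n hN w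
  have hg0 : g ≠ 0 := by
    rintro rfl
    rw [isCoprime_zero_left, Int.isUnit_iff] at hg
    omega
  have hm : (1 : ℝ) ≤ ((max |f| |g| : ℤ) : ℝ) := by exact_mod_cast max_abs_pos f g hg0
  rw [Real.logb]
  have hN0 : (0 : ℝ) < N := by exact_mod_cast (by omega : 0 < N)
  have h2 : Real.log ((max |f| |g| : ℤ) : ℝ) + Real.log (sh N n w) ≤
      N.primeFactors.card * Real.log 2 + n * Real.log N := by
    rw [← Real.log_mul (by positivity) (by positivity)]
    have hpos : 0 < ((max |f| |g| : ℤ) : ℝ) * (sh N n w : ℝ) := by positivity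
    have h3 := Real.log_le_log hpos hb
    have h4 : Real.log ((2 : ℝ) ^ N.primeFactors.card * ((N ^ n : ℕ) : ℝ)) =
        N.primeFactors.card * Real.log 2 + n * Real.log N := by
      push_cast
      rw [Real.log_mul (by positivity) (by positivity), Real.log_pow, Real.log_pow]
    rw [h4] at h3
    exact h3
  gcongr
  linarith

theorem average_bounds (N n : ℕ) (hN : 2 ≤ N) :
    (n : ℝ) / 2 - (1 + Real.log 3) / 2 / Real.log N ≤ average N n ∧
    average N n ≤ (n : ℝ) / 2 +
      ((1 + Real.log 3) / 2 + N.primeFactors.card * Real.log 2) / Real.log N := by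
  have hN0 : (0 : ℝ) < N := by exact_mod_cast (by omega : 0 < N)
  have hlN : 0 < Real.log N := Real.log_pos (by exact_mod_cast (by omega : 1 < N))
  have hP : (0 : ℝ) < (N : ℝ) ^ n := by positivity
  have hS := sum_log_sh N n hN
  have hcard : ∀ c : ℝ, ∑ _w : Fin n → Fin N, c = (N : ℝ) ^ n * c := by
    intro c
    rw [sum_const, card_univ, nsmul_eq_mul]
    simp
  unfold average
  constructor
  · rw [le_div_iff₀ hP]
    have h1 : ∑ w : Fin n → Fin N, Real.log (sh N n w) / Real.log N ≤
        ∑ w : Fin n → Fin N, complexity N n w := sum_le_sum fun w _ => lower_word N n hN w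
    refine le_trans ?_ h1
    rw [← sum_div, le_div_iff₀ hlN]
    have e : ((n : ℝ) / 2 - (1 + Real.log 3) / 2 / Real.log N) * (N : ℝ) ^ n * Real.log N =
        (N : ℝ) ^ n * (n * Real.log N - 1 - Real.log 3) / 2 := by
      field_simp
      ring
    rw [e]
    linarith
  · rw [div_le_iff₀ hP]
    have h1 : ∑ w : Fin n → Fin N, complexity N n w ≤
        ∑ w : Fin n → Fin N, (N.primeFactors.card * Real.log 2 + n * Real.log N -
          Real.log (sh N n w)) / Real.log N := sum_le_sum fun w _ => upper_word N n hN w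
    refine h1.trans ?_
    rw [← sum_div, div_le_iff₀ hlN, sum_sub_distrib, hcard]
    have e : ((n : ℝ) / 2 + ((1 + Real.log 3) / 2 + N.primeFactors.card * Real.log 2) /
        Real.log N) * (N : ℝ) ^ n * Real.log N =
        (N : ℝ) ^ n * (N.primeFactors.card * Real.log 2 + n * Real.log N) -
        (N : ℝ) ^ n * (n * Real.log N - 1 - Real.log 3) / 2 := by
      field_simp
      ring
    rw [e]
    linarith

theorem card_log_le (N : ℕ) (hN : 2 ≤ N) : (N.primeFactors.card : ℝ) * Real.log 2 ≤ Real.log N := by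
  have h1 : 2 ^ N.primeFactors.card ≤ N := by
    calc 2 ^ N.primeFactors.card = ∏ _p ∈ N.primeFactors, 2 := by rw [prod_const]
      _ ≤ ∏ p ∈ N.primeFactors, p := prod_le_prod' fun p hp =>
          (Nat.prime_of_mem_primeFactors hp).two_le
      _ ≤ N := Nat.le_of_dvd (by omega) (Nat.prod_primeFactors_dvd N)
  have h2 : (2 : ℝ) ^ N.primeFactors.card ≤ N := by exact_mod_cast h1
  rw [← Real.log_pow]
  exact Real.log_le_log (by positivity) h2

theorem average_abs (N n : ℕ) (hN : 2 ≤ N) :
    |average N n - (n : ℝ) / 2| ≤ 1 + (1 + Real.log 3) / 2 / Real.log N := by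
  obtain ⟨h1, h2⟩ := average_bounds N n hN
  have hlN : 0 < Real.log N := Real.log_pos (by exact_mod_cast (by omega : 1 < N))
  have h3 := card_log_le N hN
  have h4 : ((1 + Real.log 3) / 2 + N.primeFactors.card * Real.log 2) / Real.log N ≤
      1 + (1 + Real.log 3) / 2 / Real.log N := by
    rw [add_div, add_comm]
    gcongr
    rw [div_le_one hlN]
    exact h3
  rw [abs_le]
  constructor <;> linarith

end Pool.Agent.N590.NA
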